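import Pool.Agent.H65.RCQ.RC

set_option autoImplicit false

namespace Pool.Agent.H65.RCQ.R3N

open Pool.Agent.H39.RC
open Pool.Agent.H6.RCQ
open Pool.Agent.H65.RCQ
open Classical

variable {V : Type} {G : SimpleGraph V}

lemma deg_mid (R3A : R3AStmt) {R : Finset V} {x c : V} (hL : Lf G R) (hadj : G.Adj x c)
    (hcR : c ∈ R) (h3 : (CN G R x c).card = 3) (hne : (II G R x c).Nonempty) :
    ∃ a ∈ R, (II G R x c).card + 2 + ir R x ≤ (D G R a).card := by
  obtain ⟨a1, a2, a3, hS, n12, n13, n23, j12, j23, hor, hI⟩ := R3A V G R x c hL hadj h3 hne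
  have m1 : a1 ∈ CN G R x c := by simp [hS]
  have m2 : a2 ∈ CN G R x c := by simp [hS]
  have m3 : a3 ∈ CN G R x c := by simp [hS]
  obtain ⟨b, hb, hab⟩ : ∃ b ∈ CN G R x c, G.Adj a2 b := by
    rcases hor with h | h
    · exact ⟨a1, m1, h⟩
    · exact ⟨a3, m3, h⟩
  obtain ⟨r2, x2, c2⟩ := mem_CN.mp m2
  obtain ⟨rb, xb, cb⟩ := mem_CN.mp hb
  refine ⟨a2, r2, ?_⟩
  have hirx' : (R.filter (fun v => v = x)).card = ir R x := by
    rw [RC.ir_eq, Finset.card_filter]
  have hsub : II G R x c ∪ ({b, c} : Finset V) ∪ (R.filter (fun v => v = x)) ⊆ D G R a2 := by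
    intro v hv
    simp only [Finset.mem_union, Finset.mem_insert, Finset.mem_singleton] at hv
    rcases hv with (hv | hv) | hv
    · exact mem_D.mpr ⟨(mem_II.mp hv).1, (hI v hv).1.symm⟩
    · rcases hv with rfl | rfl
      · exact mem_D.mpr ⟨rb, hab⟩
      · exact mem_D.mpr ⟨hcR, c2.symm⟩
    · obtain ⟨h1, h2⟩ := Finset.mem_filter.mp hv
      exact mem_D.mpr ⟨h1, h2 ▸ x2.symm⟩
  have hd1 : Disjoint (II G R x c) ({b, c} : Finset V) := by
    rw [Finset.disjoint_right]
    intro v hv hv'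
    simp only [Finset.mem_insert, Finset.mem_singleton] at hv
    rcases hv with rfl | rfl
    · exact (mem_II.mp hv').2.2.2.1 xb
    · exact (mem_II.mp hv').2.2.1 rfl
  have hd2 : Disjoint (II G R x c ∪ ({b, c} : Finset V)) (R.filter (fun v => v = x)) := by
    rw [Finset.disjoint_right]
    intro v hv hv'
    have hvx := (Finset.mem_filter.mp hv).2
    subst hvx
    rcases Finset.mem_union.mp hv' with hv' | hv'
    · exact (mem_II.mp hv').2.1 rfl
    · simp only [Finset.mem_insert, Finset.mem_singleton] at hv'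
      rcases hv' with rfl | rfl
      · exact G.irrefl xb
      · exact G.irrefl hadj
  have hc := Finset.card_le_card hsub
  rw [Finset.card_union_of_disjoint hd2, Finset.card_union_of_disjoint hd1,
    Finset.card_pair cb.ne', hirx'] at hc
  omega

theorem r3n (R3A : R3AStmt) (RC : RCStmt) : R3NStmt := by
  intro V G R x c d hL hadj hcR h3 hd
  obtain ⟨r1, -, -⟩ := RC V G R x c hadj.ne
  have r1 := r1 hadj
  have dx := hd x
  have dc := hd c
  rcases (II G R x c).eq_empty_or_nonempty with he | hne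
  · rw [he, Finset.card_empty] at r1
    right
    omega
  · left
    obtain ⟨a, -, ha⟩ := deg_mid R3A hL hadj hcR h3 hne
    have da := hd a
    omega

theorem r3e (R3A : R3AStmt) (RC : RCStmt) : R3EStmt := by
  intro V G R x c d hL h5 hadj hcR h3 hd hR
  obtain ⟨r1, -, -⟩ := RC V G R x c hadj.ne
  have r1 := r1 hadj
  have dx := hd x
  have dc := hd c
  rcases (II G R x c).eq_empty_or_nonempty with he | hne
  · rw [he, Finset.card_empty] at r1
    omega
  · obtain ⟨a, haR, ha⟩ := deg_mid R3A hL hadj hcR h3 hne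
    have da := hd a
    exact ⟨a, haR, by omega⟩

theorem bk5 : BK5Stmt := by
  intro V G R x hL hxR hcl
  by_contra hcon
  rw [not_le] at hcon
  obtain ⟨T, hT, hT4⟩ := Finset.exists_subset_card_eq (show 4 ≤ (U G R x).card from hcon)
  obtain ⟨u1, u2, u3, u4, n12, n13, n14, n23, n24, n34, rfl⟩ := Finset.card_eq_four.mp hT4
  have m1 : u1 ∈ U G R x := hT (by simp)
  have m2 : u2 ∈ U G R x := hT (by simp)
  have m3 : u3 ∈ U G R x := hT (by simp)
  have m4 : u4 ∈ U G R x := hT (by simp)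
  have link : ∀ u ∈ U G R x, ∃ h, G.Adj x h ∧ G.Adj h u := by
    intro u hu
    obtain ⟨h1, h2, h3⟩ := mem_U.mp hu
    rcases hL.lk x hxR u h1 (Ne.symm h2) with h | ⟨m, -, h, h'⟩
    · exact absurd h h3
    · exact ⟨m, h, h'⟩
  obtain ⟨h1, p1, q1⟩ := link u1 m1
  obtain ⟨h2, p2, q2⟩ := link u2 m2
  obtain ⟨h3, p3, q3⟩ := link u3 m3
  obtain ⟨h4, p4, q4⟩ := link u4 m4
  have hC : Con G (insert h4 (insert h3 (insert h2 (insert h1 {x})))) := by
    refine Con.insert (y := x) (Con.insert (y := x) (Con.insert (y := x)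
      (Con.insert (y := x) (con_single x) (by simp) p1) (by simp) p2) (by simp) p3) (by simp) p4
  have hnot : ∀ u ∈ U G R x, u ∉ (insert h4 (insert h3 (insert h2 (insert h1 {x}))) : Set V) := by
    intro u hu
    obtain ⟨k1, k2, k3⟩ := mem_U.mp hu
    simp only [Set.mem_insert_iff, Set.mem_singleton_iff, not_or]
    refine ⟨?_, ?_, ?_, ?_, k2⟩
    · rintro rfl
      exact k3 p4
    · rintro rfl
      exact k3 p3
    · rintro rfl
      exact k3 p2
    · rintro rfl
      exact k3 p1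
  refine k5f hL.pg hC (con_single u1) (con_single u2) (con_single u3) (con_single u4)
    ?_ ?_ ?_ ?_ ?_ ?_ ?_ ?_ ?_ ?_ ?_ ?_ ?_ ?_ ?_ ?_ ?_ ?_ ?_ ?_
  · rw [Set.disjoint_singleton_right]
    exact hnot u1 m1
  · rw [Set.disjoint_singleton_right]
    exact hnot u2 m2
  · rw [Set.disjoint_singleton_right]
    exact hnot u3 m3
  · rw [Set.disjoint_singleton_right]
    exact hnot u4 m4
  · rwa [Set.disjoint_singleton]
  · rwa [Set.disjoint_singleton]
  · rwa [Set.disjoint_singleton]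
  · rwa [Set.disjoint_singleton]
  · rwa [Set.disjoint_singleton]
  · rwa [Set.disjoint_singleton]
  · exact ⟨h1, by simp, u1, rfl, q1⟩
  · exact ⟨h2, by simp, u2, rfl, q2⟩
  · exact ⟨h3, by simp, u3, rfl, q3⟩
  · exact ⟨h4, by simp, u4, rfl, q4⟩
  · exact ⟨u1, rfl, u2, rfl, hcl u1 m1 u2 m2 n12⟩
  · exact ⟨u1, rfl, u3, rfl, hcl u1 m1 u3 m3 n13⟩
  · exact ⟨u1, rfl, u4, rfl, hcl u1 m1 u4 m4 n14⟩
  · exact ⟨u2, rfl, u3, rfl, hcl u2 m2 u3 m3 n23⟩
  · exact ⟨u2, rfl, u4, rfl, hcl u2 m2 u4 m4 n24⟩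
  · exact ⟨u3, rfl, u4, rfl, hcl u3 m3 u4 m4 n34⟩

end Pool.Agent.H65.RCQ.R3N
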