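import Pool.Agent.H65.RCQ.R5A

set_option autoImplicit false

namespace Pool.Agent.H65.RCQ.R4B

open Pool.Agent.H39.RC
open Pool.Agent.H6.RCQ
open Pool.Agent.H65.RCQ
open Classical

variable {V : Type} {G : SimpleGraph V}

/-- the core: `u0` and `u1` share exactly the middle `a2` -/
lemma core (R4L : R4LStmt) (PE2 : PE2Stmt) (PE1 : PE1Stmt) {R : Finset V} {x c : V}
    (hL : Lf G R) (hxc : x ≠ c) (h4 : (CN G R x c).card = 4) {u0 u1 a1 a2 a3 a4 b1 b3 b4 : V}
    (hu0 : u0 ∈ II G R x c) (hu1 : u1 ∈ II G R x c)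
    (hS : CN G R x c = {a1, a2, a3, a4}) (n12 : a1 ≠ a2) (n13 : a1 ≠ a3) (n14 : a1 ≠ a4)
    (n23 : a2 ≠ a3) (n24 : a2 ≠ a4) (n34 : a3 ≠ a4)
    (e12 : G.Adj a1 a2) (f2 : G.Adj u0 a2) (f3 : G.Adj u0 a3) (e34 : G.Adj a3 a4)
    (j23 : EJ G {x} {c} (CN G R x c) a2 a3)
    (l1 : ¬ Lnk G (XX {x} {c} (CN G R x c)) u0 a1) (l4 : ¬ Lnk G (XX {x} {c} (CN G R x c)) u0 a4)
    (hT : CN G R x c = {b1, a2, b3, b4}) (m12 : b1 ≠ a2) (m13 : b1 ≠ b3) (m14 : b1 ≠ b4)
    (m23 : a2 ≠ b3) (m24 : a2 ≠ b4) (m34 : b3 ≠ b4)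
    (d12 : G.Adj b1 a2) (g2 : G.Adj u1 a2) (g3 : G.Adj u1 b3) (d34 : G.Adj b3 b4)
    (i23 : EJ G {x} {c} (CN G R x c) a2 b3)
    (k1 : ¬ Lnk G (XX {x} {c} (CN G R x c)) u1 b1) (k4 : ¬ Lnk G (XX {x} {c} (CN G R x c)) u1 b4)
    (hne : b3 ≠ a3) :
    ∃ a ∈ CN G R x c, (∀ u ∈ II G R x c, G.Adj u a) ∧ (∀ b ∈ PB G R x c, G.Adj b a) ∧
    ∃ a' ∈ CN G R x c, ∃ a'' ∈ CN G R x c, a' ≠ a'' ∧ G.Adj a a' ∧ G.Adj a a'' := by
  have pol := pol_cn (G := G) (R := R) hxc
  have pe2 := PE2 V G {x} {c} (CN G R x c) hL.pg pol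
  have pe1 := PE1 V G {x} {c} (CN G R x c) hL.pg pol
  have ma1 : a1 ∈ CN G R x c := by simp [hS]
  have ma2 : a2 ∈ CN G R x c := by simp [hS]
  have ma3 : a3 ∈ CN G R x c := by simp [hS]
  have ma4 : a4 ∈ CN G R x c := by simp [hS]
  have mb1 : b1 ∈ CN G R x c := by simp [hT]
  have mb3 : b3 ∈ CN G R x c := by simp [hT]
  have mb4 : b4 ∈ CN G R x c := by simp [hT]
  have j21 := ej_adj (P := {x}) (Q := {c}) ma2 ma1 e12.symm
  have nb : ∀ t, EJ G {x} {c} (CN G R x c) a2 t → t = a1 ∨ t = a3 := by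
    intro t ht
    by_contra hcon
    rw [not_or] at hcon
    exact pe2 a2 a1 a3 t j21 j23 ht n13 (Ne.symm hcon.1) (Ne.symm hcon.2)
  have hb3 : b3 = a1 := (nb b3 i23).resolve_right hne
  have hb1 : b1 = a3 := by
    rcases nb b1 (ej_adj ma2 mb1 d12.symm) with e | e
    · exact absurd (e.trans hb3.symm) m13
    · exact e
  subst hb3
  subst hb1
  -- now `b3` is the old `a1`, `b1` the old `a3`
  have hb4 : b4 = a4 := by
    have := mb4
    rw [hS] at this
    simp only [Finset.mem_insert, Finset.mem_singleton] at this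
    rcases this with e | e | e | e
    · exact absurd e.symm m34
    · exact absurd e.symm m24
    · exact absurd e.symm m14
    · exact e
  subst hb4
  have j32 := ej_adj (P := {x}) (Q := {c}) mb1 ma2 d12
  have j34 := ej_adj (P := {x}) (Q := {c}) mb1 ma4 e34
  have j14 := ej_adj (P := {x}) (Q := {c}) mb3 ma4 d34
  have j12 := ej_symm j21
  -- outside vertices are not in `X`
  have hIX : ∀ u ∈ II G R x c, u ∉ XX {x} {c} (CN G R x c) := by
    intro u hu
    obtain ⟨u1, u2, u3, u4, u5⟩ := mem_II.mp hu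
    rw [mem_XX1]
    rintro (e | e | e)
    · exact u2 e
    · exact u3 e
    · exact u4 (mem_CN.mp e).2.1
  have hBX : ∀ b ∈ PB G R x c, b ∉ XX {x} {c} (CN G R x c) := by
    intro b hb
    obtain ⟨u1, u2, u3, u4⟩ := mem_PB.mp hb
    rw [mem_XX1]
    rintro (e | e | e)
    · exact u2.ne' e
    · exact u4 e
    · exact u3 (mem_CN.mp e).2.2
  have u0X := hIX u0 hu0
  have u1X := hIX u1 hu1
  have n_13 : ¬ EJ G {x} {c} (CN G R x c) b3 b1 := fun h =>
    pe2 b3 a2 b4 b1 j12 j14 h n24 n23 n34.symm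
  have n_24 : ¬ EJ G {x} {c} (CN G R x c) a2 b4 := fun h =>
    pe2 a2 b3 b1 b4 j21 j23 h n13 m34 n34
  refine ⟨a2, ma2, ?_, ?_, b3, mb3, b1, mb1, n13, e12.symm, d12.symm⟩
  · intro u hu
    obtain ⟨a, b, b', d, hS', k1', k2', k3', k4', k5', k6', g1', g2', g3', g4', g5', l1', l2'⟩ :=
      R5A.sides R4L hL hxc h4 hu
    have ma : a ∈ CN G R x c := by simp [hS']
    have mb : b ∈ CN G R x c := by simp [hS']
    have mb' : b' ∈ CN G R x c := by simp [hS']
    have md : d ∈ CN G R x c := by simp [hS']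
    have uX := hIX u hu
    by_contra hcon
    -- `a2` is not a side of `u`
    have hba : b ≠ a2 := fun e => hcon (e ▸ g2')
    have hb'a : b' ≠ a2 := fun e => hcon (e ▸ g3')
    have uR := (mem_II.mp hu).1
    -- attachments of `u`
    have att : ∀ s ∈ CN G R x c, Lnk G (XX {x} {c} (CN G R x c)) u s → s = b ∨ s = b' := by
      intro s hs h
      have h5 := hs
      rw [hS'] at h5
      simp only [Finset.mem_insert, Finset.mem_singleton] at h5
      rcases h5 with rfl | rfl | rfl | rfl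
      · exact absurd h l1'
      · exact Or.inl rfl
      · exact Or.inr rfl
      · exact absurd h l2'
    have att0 : ∀ s ∈ CN G R x c, Lnk G (XX {x} {c} (CN G R x c)) u0 s → s = a2 ∨ s = b1 := by
      intro s hs h
      have h5 := hs
      rw [hS] at h5
      simp only [Finset.mem_insert, Finset.mem_singleton] at h5
      rcases h5 with rfl | rfl | rfl | rfl
      · exact absurd h l1
      · exact Or.inl rfl
      · exact Or.inr rfl
      · exact absurd h l4
    have att1 : ∀ s ∈ CN G R x c, Lnk G (XX {x} {c} (CN G R x c)) u1 s → s = a2 ∨ s = b3 := by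
      intro s hs h
      have h5 := hs
      rw [hS] at h5
      simp only [Finset.mem_insert, Finset.mem_singleton] at h5
      rcases h5 with rfl | rfl | rfl | rfl
      · exact Or.inr rfl
      · exact Or.inl rfl
      · exact absurd h k1
      · exact absurd h k4
    -- `u` shares a side with `u0` and with `u1`
    have share : ∀ w ∈ II G R x c, (∀ s ∈ CN G R x c, Lnk G (XX {x} {c} (CN G R x c)) w s →
        s = a2 ∨ s = b1 ∨ s = b3) → ¬ G.Adj u a2 →
        (∃ s ∈ CN G R x c, Lnk G (XX {x} {c} (CN G R x c)) w s ∧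
          Lnk G (XX {x} {c} (CN G R x c)) u s) ∨ u = w := by
      intro w hw hatt hua
      by_cases huw : u = w
      · exact Or.inr huw
      · left
        obtain ⟨w1, w2, w3, w4, w5⟩ := mem_II.mp hw
        obtain ⟨v1, v2, v3, v4, v5⟩ := mem_II.mp hu
        have hr := rch_avoid (hL.lk u v1 w w1 huw) v4 v5
        rcases rch_cases uX (hIX w hw) hr with h | ⟨m, hm, h, h'⟩
        · exact ⟨b, mb, (h b).mp (lnk_adj uX g2'), lnk_adj uX g2'⟩
        · exact ⟨m, hm, lnk_adj (hIX w hw) h'.symm, lnk_adj uX h⟩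
    have s0 : b = b1 ∨ b' = b1 := by
      rcases share u0 hu0 (fun s hs h => (att0 s hs h).imp_right Or.inl) hcon with
        ⟨s, hs, h, h'⟩ | e
      · rcases att0 s hs h with rfl | rfl
        · rcases att s hs h' with e | e
          · exact absurd e.symm hba
          · exact absurd e.symm hb'a
        · rcases att s hs h' with e | e
          · exact Or.inl e.symm
          · exact Or.inr e.symm
      · exact absurd (e ▸ f2) hcon
    have s1 : b = b3 ∨ b' = b3 := by
      rcases share u1 hu1 (fun s hs h => (att1 s hs h).imp_right Or.inr) hcon with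
        ⟨s, hs, h, h'⟩ | e
      · rcases att1 s hs h with rfl | rfl
        · rcases att s hs h' with e | e
          · exact absurd e.symm hba
          · exact absurd e.symm hb'a
        · rcases att s hs h' with e | e
          · exact Or.inl e.symm
          · exact Or.inr e.symm
      · exact absurd (e ▸ g2) hcon
    rcases s0 with rfl | rfl <;> rcases s1 with rfl | rfl
    · exact n13 rfl
    · exact n_13 (ej_symm g5')
    · exact n_13 g5'
    · exact n13 rfl
  · intro b hb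
    obtain ⟨c1, c2, c3, c4⟩ := mem_PB.mp hb
    have bX := hBX b hb
    have link : ∀ w ∈ II G R x c, Rch G ({x} ∪ {c}) w b := by
      intro w hw
      obtain ⟨w1, w2, w3, w4, w5⟩ := mem_II.mp hw
      have : w ≠ b := by
        rintro rfl
        exact w4 c2
      exact rch_avoid (hL.lk w w1 b c1 this) w4 w5
    have att0 : ∀ s ∈ CN G R x c, Lnk G (XX {x} {c} (CN G R x c)) u0 s → s = a2 ∨ s = b1 := by
      intro s hs h
      have h5 := hs
      rw [hS] at h5
      simp only [Finset.mem_insert, Finset.mem_singleton] at h5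
      rcases h5 with rfl | rfl | rfl | rfl
      · exact absurd h l1
      · exact Or.inl rfl
      · exact Or.inr rfl
      · exact absurd h l4
    have att1 : ∀ s ∈ CN G R x c, Lnk G (XX {x} {c} (CN G R x c)) u1 s → s = a2 ∨ s = b3 := by
      intro s hs h
      have h5 := hs
      rw [hS] at h5
      simp only [Finset.mem_insert, Finset.mem_singleton] at h5
      rcases h5 with rfl | rfl | rfl | rfl
      · exact Or.inr rfl
      · exact Or.inl rfl
      · exact absurd h k1
      · exact absurd h k4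
    rcases rch_cases u0X bX (link u0 hu0) with h | ⟨m, hm, h, h'⟩
    · rcases rch_cases u1X bX (link u1 hu1) with g | ⟨m', hm', g, g'⟩
      · exfalso
        have q : Lnk G (XX {x} {c} (CN G R x c)) u1 b1 := (g b1).mpr ((h b1).mp (lnk_adj u0X f3))
        exact k1 q
      · rcases att1 m' hm' (lnk_adj u1X g) with rfl | rfl
        · exact g'.symm
        · exfalso
          have q := (h m').mpr (lnk_adj bX g'.symm)
          exact l1 q
    · rcases att0 m hm (lnk_adj u0X h) with rfl | rfl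
      · exact h'.symm
      · rcases rch_cases u1X bX (link u1 hu1) with g | ⟨m', hm', g, g'⟩
        · exfalso
          exact k1 ((g m).mpr (lnk_adj bX h'.symm))
        · rcases att1 m' hm' (lnk_adj u1X g) with rfl | rfl
          · exact g'.symm
          · exfalso
            exact n_13 (ej_lnk mb3 mb1 n13 (lnk_adj bX g'.symm) (lnk_adj bX h'.symm))

lemma perm4 (a b c d : V) : ({a, b, c, d} : Finset V) = {d, c, b, a} := by
  ext v
  simp only [Finset.mem_insert, Finset.mem_singleton]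
  tauto

theorem r4b (R4L : R4LStmt) (PE2 : PE2Stmt) (PE1 : PE1Stmt) : R4BStmt := by
  intro V G R x c hL hxc h4 hne
  obtain ⟨u0, hu0⟩ := hne
  obtain ⟨a1, a2, a3, a4, hS, n12, n13, n14, n23, n24, n34, e12, f2, f3, e34, j23, l1, l4⟩ :=
    R5A.sides R4L hL hxc h4 hu0
  by_cases hall : ∀ u ∈ II G R x c, G.Adj u a2 ∧ G.Adj u a3
  · exact Or.inl ⟨a1, a2, a3, a4, hS, n12, n13, n14, n23, n24, n34, e12, e34, hall⟩
  right
  push Not at hall
  obtain ⟨u1, hu1, hnot⟩ := hall
  obtain ⟨b1, b2, b3, b4, hT, m12, m13, m14, m23, m24, m34, d12, g2, g3, d34, i23, k1, k4⟩ :=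
    R5A.sides R4L hL hxc h4 hu1
  have hu01 : u0 ≠ u1 := by
    rintro rfl
    exact hnot f2 f3
  have pol := pol_cn (G := G) (R := R) hxc
  have pe1 := PE1 V G {x} {c} (CN G R x c) hL.pg pol
  have ma1 : a1 ∈ CN G R x c := by simp [hS]
  have ma2 : a2 ∈ CN G R x c := by simp [hS]
  have ma3 : a3 ∈ CN G R x c := by simp [hS]
  have ma4 : a4 ∈ CN G R x c := by simp [hS]
  have mb2 : b2 ∈ CN G R x c := by simp [hT]
  have mb3 : b3 ∈ CN G R x c := by simp [hT]
  have hIX : ∀ u ∈ II G R x c, u ∉ XX {x} {c} (CN G R x c) := by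
    intro u hu
    obtain ⟨u1, u2, u3, u4, u5⟩ := mem_II.mp hu
    rw [mem_XX1]
    rintro (e | e | e)
    · exact u2 e
    · exact u3 e
    · exact u4 (mem_CN.mp e).2.1
  have u0X := hIX u0 hu0
  have u1X := hIX u1 hu1
  have att0 : ∀ s ∈ CN G R x c, Lnk G (XX {x} {c} (CN G R x c)) u0 s → s = a2 ∨ s = a3 := by
    intro s hs h
    have h5 := hs
    rw [hS] at h5
    simp only [Finset.mem_insert, Finset.mem_singleton] at h5
    rcases h5 with rfl | rfl | rfl | rfl
    · exact absurd h l1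
    · exact Or.inl rfl
    · exact Or.inr rfl
    · exact absurd h l4
  have att1 : ∀ s ∈ CN G R x c, Lnk G (XX {x} {c} (CN G R x c)) u1 s → s = b2 ∨ s = b3 := by
    intro s hs h
    have h5 := hs
    rw [hT] at h5
    simp only [Finset.mem_insert, Finset.mem_singleton] at h5
    rcases h5 with rfl | rfl | rfl | rfl
    · exact absurd h k1
    · exact Or.inl rfl
    · exact Or.inr rfl
    · exact absurd h k4
  -- a common side
  have hcommon : ∃ s ∈ CN G R x c, (s = a2 ∨ s = a3) ∧ (s = b2 ∨ s = b3) := by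
    obtain ⟨w1, w2, w3, w4, w5⟩ := mem_II.mp hu0
    obtain ⟨v1, v2, v3, v4, v5⟩ := mem_II.mp hu1
    rcases rch_cases u0X u1X (rch_avoid (hL.lk u0 w1 u1 v1 hu01) w4 w5) with h | ⟨m, hm, h, h'⟩
    · have q := (h a2).mp (lnk_adj u0X f2)
      exact ⟨a2, ma2, Or.inl rfl, att1 a2 ma2 q⟩
    · exact ⟨m, hm, att0 m hm (lnk_adj u0X h), att1 m hm (lnk_adj u1X h'.symm)⟩
  -- the sides are not equal
  have hdiff : ¬ (b2 = a2 ∧ b3 = a3) ∧ ¬ (b2 = a3 ∧ b3 = a2) := by
    constructor
    · rintro ⟨rfl, rfl⟩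
      exact hnot g2 g3
    · rintro ⟨rfl, rfl⟩
      exact hnot g3 g2
  have hS' := hS.trans (perm4 a1 a2 a3 a4)
  have hT' := hT.trans (perm4 b1 b2 b3 b4)
  obtain ⟨s, hs, hsa, hsb⟩ := hcommon
  rcases hsa with rfl | rfl <;> rcases hsb with rfl | rfl
  · exact core R4L PE2 PE1 hL hxc h4 hu0 hu1 hS n12 n13 n14 n23 n24 n34 e12 f2 f3 e34 j23 l1 l4
      hT m12 m13 m14 m23 m24 m34 d12 g2 g3 d34 i23 k1 k4 (fun e => hdiff.1 ⟨rfl, e⟩)
  · exact core R4L PE2 PE1 hL hxc h4 hu0 hu1 hS n12 n13 n14 n23 n24 n34 e12 f2 f3 e34 j23 l1 l4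
      hT' m34.symm m24.symm m14.symm m23.symm m13.symm m12.symm d34.symm g3 g2 d12.symm
      (ej_symm i23) k4 k1 (fun e => hdiff.2 ⟨e, rfl⟩)
  · exact core R4L PE2 PE1 hL hxc h4 hu0 hu1 hS' n34.symm n24.symm n14.symm n23.symm n13.symm
      n12.symm e34.symm f3 f2 e12.symm (ej_symm j23) l4 l1
      hT m12 m13 m14 m23 m24 m34 d12 g2 g3 d34 i23 k1 k4 (fun e => hdiff.2 ⟨rfl, e⟩)
  · exact core R4L PE2 PE1 hL hxc h4 hu0 hu1 hS' n34.symm n24.symm n14.symm n23.symm n13.symm
      n12.symm e34.symm f3 f2 e12.symm (ej_symm j23) l4 l1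
      hT' m34.symm m24.symm m14.symm m23.symm m13.symm m12.symm d34.symm g3 g2 d12.symm
      (ej_symm i23) k4 k1 (fun e => hdiff.1 ⟨e, rfl⟩)

/-- R4A: with at least three private neighbours the one-region case holds -/
theorem r4a (R4B : R4BStmt) : R4AStmt := by
  intro V G R x c hL hco hxc h4 hne h3
  rcases R4B V G R x c hL hxc h4 hne with h | ⟨a, ha, -, hb, a', ha', a'', ha'', hn, e1, e2⟩
  · exact h
  · exfalso
    have hax : x ≠ a := (mem_CN.mp ha).2.1.ne
    have hle := hco x a hax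
    have hsub : insert a' (insert a'' (PB G R x c)) ⊆ CN G R x a := by
      intro v hv
      rw [Finset.mem_insert, Finset.mem_insert] at hv
      rcases hv with rfl | rfl | hv
      · obtain ⟨q1, q2, q3⟩ := mem_CN.mp ha'
        exact mem_CN.mpr ⟨q1, q2, e1⟩
      · obtain ⟨q1, q2, q3⟩ := mem_CN.mp ha''
        exact mem_CN.mpr ⟨q1, q2, e2⟩
      · obtain ⟨q1, q2, q3, q4⟩ := mem_PB.mp hv
        exact mem_CN.mpr ⟨q1, q2, (hb v hv).symm⟩
    have h5 : a'' ∉ PB G R x c := fun h => (mem_PB.mp h).2.2.1 (mem_CN.mp ha'').2.2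
    have h6 : a' ∉ insert a'' (PB G R x c) := by
      rw [Finset.mem_insert]
      rintro (e | e)
      · exact hn e
      · exact (mem_PB.mp e).2.2.1 (mem_CN.mp ha').2.2
    have h7 := Finset.card_le_card hsub
    rw [Finset.card_insert_of_notMem h6, Finset.card_insert_of_notMem h5] at h7
    omega

end Pool.Agent.H65.RCQ.R4B
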