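import Pool.Agent.H6.RCQ.Stmts1

set_option autoImplicit false

namespace Pool.Agent.H65.RCQ

open Pool.Agent.H39.RC
open Pool.Agent.H6.RCQ
open Classical

variable {V : Type} {G : SimpleGraph V}

/-- a `K₃,₃` minor from six explicit sets -/
lemma k33f (pg : PG G) {A B C D E F : Set V}
    (cA : Con G A) (cB : Con G B) (cC : Con G C) (cD : Con G D) (cE : Con G E) (cF : Con G F)
    (dAB : Disjoint A B) (dAC : Disjoint A C) (dBC : Disjoint B C)
    (dDE : Disjoint D E) (dDF : Disjoint D F) (dEF : Disjoint E F)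
    (dAD : Disjoint A D) (dAE : Disjoint A E) (dAF : Disjoint A F)
    (dBD : Disjoint B D) (dBE : Disjoint B E) (dBF : Disjoint B F)
    (dCD : Disjoint C D) (dCE : Disjoint C E) (dCF : Disjoint C F)
    (aAD : ∃ x ∈ A, ∃ y ∈ D, G.Adj x y) (aAE : ∃ x ∈ A, ∃ y ∈ E, G.Adj x y)
    (aAF : ∃ x ∈ A, ∃ y ∈ F, G.Adj x y)
    (aBD : ∃ x ∈ B, ∃ y ∈ D, G.Adj x y) (aBE : ∃ x ∈ B, ∃ y ∈ E, G.Adj x y)
    (aBF : ∃ x ∈ B, ∃ y ∈ F, G.Adj x y)
    (aCD : ∃ x ∈ C, ∃ y ∈ D, G.Adj x y) (aCE : ∃ x ∈ C, ∃ y ∈ E, G.Adj x y)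
    (aCF : ∃ x ∈ C, ∃ y ∈ F, G.Adj x y) : False := by
  apply pg.k33
  refine hasMinor_k33 ![A, B, C] ![D, E, F] ?_ ?_ ?_ ?_ ?_ ?_
  · intro i
    fin_cases i
    · exact cA
    · exact cB
    · exact cC
  · intro i
    fin_cases i
    · exact cD
    · exact cE
    · exact cF
  · intro i j hij
    fin_cases i <;> fin_cases j <;> simp at hij ⊢
    · exact dAB
    · exact dAC
    · exact dBC
  · intro i j hij
    fin_cases i <;> fin_cases j <;> simp at hij ⊢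
    · exact dDE
    · exact dDF
    · exact dEF
  · intro i j
    fin_cases i <;> fin_cases j
    · exact dAD
    · exact dAE
    · exact dAF
    · exact dBD
    · exact dBE
    · exact dBF
    · exact dCD
    · exact dCE
    · exact dCF
  · intro i j
    fin_cases i <;> fin_cases j
    · exact aAD
    · exact aAE
    · exact aAF
    · exact aBD
    · exact aBE
    · exact aBF
    · exact aCD
    · exact aCE
    · exact aCF

/-- a `K₅` minor from five explicit sets -/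
lemma k5f (pg : PG G) {A B C D E : Set V}
    (cA : Con G A) (cB : Con G B) (cC : Con G C) (cD : Con G D) (cE : Con G E)
    (dAB : Disjoint A B) (dAC : Disjoint A C) (dAD : Disjoint A D) (dAE : Disjoint A E)
    (dBC : Disjoint B C) (dBD : Disjoint B D) (dBE : Disjoint B E)
    (dCD : Disjoint C D) (dCE : Disjoint C E) (dDE : Disjoint D E)
    (aAB : ∃ x ∈ A, ∃ y ∈ B, G.Adj x y) (aAC : ∃ x ∈ A, ∃ y ∈ C, G.Adj x y)
    (aAD : ∃ x ∈ A, ∃ y ∈ D, G.Adj x y) (aAE : ∃ x ∈ A, ∃ y ∈ E, G.Adj x y)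
    (aBC : ∃ x ∈ B, ∃ y ∈ C, G.Adj x y) (aBD : ∃ x ∈ B, ∃ y ∈ D, G.Adj x y)
    (aBE : ∃ x ∈ B, ∃ y ∈ E, G.Adj x y)
    (aCD : ∃ x ∈ C, ∃ y ∈ D, G.Adj x y) (aCE : ∃ x ∈ C, ∃ y ∈ E, G.Adj x y)
    (aDE : ∃ x ∈ D, ∃ y ∈ E, G.Adj x y) : False := by
  apply pg.k5
  refine hasMinor_k5 ![A, B, C, D, E] ?_ ?_ ?_
  · intro i
    fin_cases i
    · exact cA
    · exact cB
    · exact cC
    · exact cD
    · exact cE
  · intro i j hij
    fin_cases i <;> fin_cases j <;> simp at hij ⊢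
    · exact dAB
    · exact dAC
    · exact dAD
    · exact dAE
    · exact dBC
    · exact dBD
    · exact dBE
    · exact dCD
    · exact dCE
    · exact dDE
  · intro i j hij
    fin_cases i <;> fin_cases j <;> simp at hij
    · exact aAB
    · exact aAC
    · exact aAD
    · exact aAE
    · exact aBC
    · exact aBD
    · exact aBE
    · exact aCD
    · exact aCE
    · exact aDE

lemma ej_symm {P Q : Set V} {S : Finset V} {s t : V} (h : EJ G P Q S s t) : EJ G P Q S t s := by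
  obtain ⟨h1, h2, h3, h4⟩ := h
  refine ⟨h2, h1, h3.symm, ?_⟩
  rcases h4 with h4 | ⟨v, h4, h5⟩
  · exact Or.inl h4.symm
  · exact Or.inr ⟨v, h5, h4⟩

lemma ej_adj {P Q : Set V} {S : Finset V} {s t : V} (hs : s ∈ S) (ht : t ∈ S)
    (h : G.Adj s t) : EJ G P Q S s t := ⟨hs, ht, h.ne, Or.inl h⟩

lemma ej_lnk {P Q : Set V} {S : Finset V} {s t v : V} (hs : s ∈ S) (ht : t ∈ S) (n : s ≠ t)
    (h1 : Lnk G (XX P Q S) v s) (h2 : Lnk G (XX P Q S) v t) : EJ G P Q S s t :=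
  ⟨hs, ht, n, Or.inr ⟨v, h1, h2⟩⟩

lemma rch_symm {A : Set V} {u v : V} (h : Rch G A u v) : Rch G A v u := h.symm

lemma mem_CN {R : Finset V} {x y v : V} : v ∈ CN G R x y ↔ v ∈ R ∧ G.Adj x v ∧ G.Adj y v := by
  simp [CN]

lemma mem_II {R : Finset V} {x y v : V} :
    v ∈ II G R x y ↔ v ∈ R ∧ v ≠ x ∧ v ≠ y ∧ ¬ G.Adj x v ∧ ¬ G.Adj y v := by
  simp [II]

lemma mem_PB {R : Finset V} {x y v : V} :
    v ∈ PB G R x y ↔ v ∈ R ∧ G.Adj x v ∧ ¬ G.Adj y v ∧ v ≠ y := by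
  simp [PB]

lemma mem_D {R : Finset V} {x v : V} : v ∈ D G R x ↔ v ∈ R ∧ G.Adj x v := by
  simp [D]

lemma mem_U {R : Finset V} {x v : V} : v ∈ U G R x ↔ v ∈ R ∧ v ≠ x ∧ ¬ G.Adj x v := by
  simp [U]

lemma mem_XX1 {x c v : V} {S : Finset V} : v ∈ XX {x} {c} S ↔ v = x ∨ v = c ∨ v ∈ S := by
  simp only [XX, Set.mem_union, Set.mem_singleton_iff, Finset.mem_coe]
  tauto

lemma pol_cn {R : Finset V} {x c : V} (h : x ≠ c) : Pol G {x} {c} (CN G R x c) where
  cP := con_single x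
  cQ := con_single c
  dis := by
    rw [Set.disjoint_singleton]
    exact h
  oP := by
    intro s hs e
    rw [Set.mem_singleton_iff] at e
    exact (mem_CN.mp hs).2.1.ne' e
  oQ := by
    intro s hs e
    rw [Set.mem_singleton_iff] at e
    exact (mem_CN.mp hs).2.2.ne' e
  aP := fun s hs => ⟨x, rfl, (mem_CN.mp hs).2.1⟩
  aQ := fun s hs => ⟨c, rfl, (mem_CN.mp hs).2.2⟩

/-- a link from a vertex not adjacent to `x`, `c` avoids `x`, `c` -/
lemma rch_avoid {x c u v : V} (h : Rch G ∅ u v) (hx : ¬ G.Adj x u) (hc : ¬ G.Adj c u) :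
    Rch G ({x} ∪ {c}) u v := by
  rcases h with h | ⟨m, h1, h2, h3⟩
  · exact Or.inl h
  · refine Or.inr ⟨m, ?_, h2, h3⟩
    rintro (e | e)
    · rw [Set.mem_singleton_iff] at e
      exact hx (e ▸ h2.symm)
    · rw [Set.mem_singleton_iff] at e
      exact hc (e ▸ h2.symm)

/-- two vertices outside `X` joined outside `X` have the same attachments -/
lemma lnk_join {X Z : Set V} {u v a : V} (hZ : Con G Z) (hX : ∀ z ∈ Z, z ∉ X) (hu : u ∈ Z)
    (hv : v ∈ Z) (h : Lnk G X v a) : Lnk G X u a := by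
  obtain ⟨W, h1, h2, h3, z, h4, h5⟩ := h
  refine ⟨Z ∪ W, Or.inl hu, hZ.union h2 hv h1, ?_, z, Or.inr h4, h5⟩
  rintro y (hy | hy)
  · exact hX y hy
  · exact h3 y hy

/-- either the link is in the rest of the graph, or the middle is a common neighbour -/
lemma rch_cases {P Q : Set V} {S : Finset V} {u v : V} (hu : u ∉ XX P Q S) (hv : v ∉ XX P Q S)
    (h : Rch G (P ∪ Q) u v) :
    (∀ a, Lnk G (XX P Q S) u a ↔ Lnk G (XX P Q S) v a) ∨
      ∃ m ∈ S, G.Adj u m ∧ G.Adj m v := by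
  rcases h with h | ⟨m, h1, h2, h3⟩
  · left
    intro a
    exact ⟨fun k => lnk_cons hv h.symm k, fun k => lnk_cons hu h k⟩
  · by_cases hm : m ∈ S
    · exact Or.inr ⟨m, hm, h2, h3⟩
    · left
      have hm' : m ∉ XX P Q S := by
        rintro ((e | e) | e)
        · exact h1 (Or.inl e)
        · exact h1 (Or.inr e)
        · exact hm e
      intro a
      exact ⟨fun k => lnk_cons hv h3.symm (lnk_cons hm' h2.symm k),
        fun k => lnk_cons hu h2 (lnk_cons hm' h3 k)⟩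

end Pool.Agent.H65.RCQ
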