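import Pool.Agent.H6.RCQ.Stmts3
import Pool.Agent.H65.RCQ.Tools

set_option autoImplicit false

namespace Pool.Agent.H65.RCQ.R5A

open Pool.Agent.H39.RC
open Pool.Agent.H6.RCQ
open Pool.Agent.H65.RCQ
open Classical

variable {V : Type} {G : SimpleGraph V}

/-- the data given by R4L for a vertex of `II` -/
lemma sides (R4L : R4LStmt) {R : Finset V} {x c : V} (hL : Lf G R) (hxc : x ≠ c)
    (h4 : (CN G R x c).card = 4) {u : V} (hu : u ∈ II G R x c) :
    ∃ a b c' d, CN G R x c = {a, b, c', d} ∧ a ≠ b ∧ a ≠ c' ∧ a ≠ d ∧ b ≠ c' ∧ b ≠ d ∧ c' ≠ d ∧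
    G.Adj a b ∧ G.Adj u b ∧ G.Adj u c' ∧ G.Adj c' d ∧ EJ G {x} {c} (CN G R x c) b c' ∧
    ¬ Lnk G (XX {x} {c} (CN G R x c)) u a ∧ ¬ Lnk G (XX {x} {c} (CN G R x c)) u d := by
  obtain ⟨u1, u2, u3, u4, u5⟩ := mem_II.mp hu
  have huX : u ∉ XX {x} {c} (CN G R x c) := by
    rw [mem_XX1]
    rintro (e | e | e)
    · exact u2 e
    · exact u3 e
    · exact u4 (mem_CN.mp e).2.1
  refine R4L V G {x} {c} (CN G R x c) hL.pg (pol_cn hxc) h4 u huX ?_
  intro s hs
  obtain ⟨s1, s2, s3⟩ := mem_CN.mp hs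
  have hus : u ≠ s := by
    rintro rfl
    exact u4 s2
  exact rch_avoid (hL.lk u u1 s s1 hus) u4 u5

theorem r5a (R4L : R4LStmt) (PE2 : PE2Stmt) (PE4 : PE4Stmt) : R5AStmt := by
  intro V G R x c hL hadj h4 hne
  have hxc := hadj.ne
  obtain ⟨u0, hu0⟩ := hne
  obtain ⟨a1, a2, a3, a4, hS, n12, n13, n14, n23, n24, n34, e12, f2, f3, e34, j23, -, -⟩ :=
    sides R4L hL hxc h4 hu0
  have m1 : a1 ∈ CN G R x c := by simp [hS]
  have m2 : a2 ∈ CN G R x c := by simp [hS]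
  have m3 : a3 ∈ CN G R x c := by simp [hS]
  have m4 : a4 ∈ CN G R x c := by simp [hS]
  have pol := pol_cn (G := G) (R := R) hxc
  have padj : PAdj G {x} {c} := ⟨x, rfl, c, rfl, hadj⟩
  have j12 := ej_adj (P := {x}) (Q := {c}) m1 m2 e12
  have j34 := ej_adj (P := {x}) (Q := {c}) m3 m4 e34
  have pe2 := PE2 V G {x} {c} (CN G R x c) hL.pg pol
  have pe4 := PE4 V G {x} {c} (CN G R x c) hL.pg pol (Or.inl padj)
  -- no further consecutive pairs
  have n_13 : ¬ EJ G {x} {c} (CN G R x c) a1 a3 := fun h =>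
    pe2 a3 a2 a4 a1 (ej_symm j23) j34 (ej_symm h) n24 n12.symm n14.symm
  have n_24 : ¬ EJ G {x} {c} (CN G R x c) a2 a4 := fun h =>
    pe2 a2 a1 a3 a4 (ej_symm j12) j23 h n13 n14 n34
  have n_14 : ¬ EJ G {x} {c} (CN G R x c) a1 a4 := fun h =>
    pe4 a1 a2 a3 a4 n13 n24 j12 j23 j34 (ej_symm h)
  have only1 : ∀ t, EJ G {x} {c} (CN G R x c) a1 t → t = a2 := by
    intro t ht
    have h1 := ht.2.1
    rw [hS] at h1
    simp only [Finset.mem_insert, Finset.mem_singleton] at h1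
    rcases h1 with rfl | rfl | rfl | rfl
    · exact absurd rfl ht.2.2.1
    · rfl
    · exact absurd ht n_13
    · exact absurd ht n_14
  have only4 : ∀ t, EJ G {x} {c} (CN G R x c) a4 t → t = a3 := by
    intro t ht
    have h1 := ht.2.1
    rw [hS] at h1
    simp only [Finset.mem_insert, Finset.mem_singleton] at h1
    rcases h1 with rfl | rfl | rfl | rfl
    · exact absurd (ej_symm ht) n_14
    · exact absurd (ej_symm ht) n_24
    · rfl
    · exact absurd rfl ht.2.2.1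
  have mid : ∀ b p q, EJ G {x} {c} (CN G R x c) b p → EJ G {x} {c} (CN G R x c) b q → p ≠ q →
      b = a2 ∨ b = a3 := by
    intro b p q h1 h2 hpq
    have h3 := h1.1
    rw [hS] at h3
    simp only [Finset.mem_insert, Finset.mem_singleton] at h3
    rcases h3 with rfl | rfl | rfl | rfl
    · exact absurd ((only1 p h1).trans (only1 q h2).symm) hpq
    · exact Or.inl rfl
    · exact Or.inr rfl
    · exact absurd ((only4 p h1).trans (only4 q h2).symm) hpq
  refine ⟨a1, a2, a3, a4, hS, n12, n13, n14, n23, n24, n34, e12, e34, ?_⟩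
  intro u hu
  obtain ⟨a, b, b', d, hS', k1, k2, k3, k4, k5, k6, g1, g2, g3, g4, g5, -, -⟩ :=
    sides R4L hL hxc h4 hu
  have ma : a ∈ CN G R x c := by simp [hS']
  have mb : b ∈ CN G R x c := by simp [hS']
  have mb' : b' ∈ CN G R x c := by simp [hS']
  have md : d ∈ CN G R x c := by simp [hS']
  have r1 := mid b a b' (ej_symm (ej_adj ma mb g1)) g5 k2
  have r2 := mid b' b d (ej_symm g5) (ej_adj mb' md g4) k5
  rcases r1 with rfl | rfl <;> rcases r2 with rfl | rfl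
  · exact absurd rfl k4
  · exact ⟨g2, g3⟩
  · exact ⟨g3, g2⟩
  · exact absurd rfl k4

end Pool.Agent.H65.RCQ.R5A
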