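import Pool.Agent.H65.RCQ.R4B

set_option autoImplicit false

namespace Pool.Agent.H65.RCQ.RC

open Pool.Agent.H39.RC
open Pool.Agent.H6.RCQ
open Pool.Agent.H65.RCQ
open Classical

variable {V : Type} {G : SimpleGraph V}

lemma ir_eq (R : Finset V) (x : V) : ir R x = ∑ v ∈ R, if v = x then 1 else 0 := by
  simp [ir]

theorem rc : RCStmt := by
  intro V G R x c hxc
  have hirr : ¬ G.Adj x x := G.irrefl
  have hirc : ¬ G.Adj c c := G.irrefl
  refine ⟨?_, ?_, ?_⟩
  · intro h
    have h' : G.Adj c x := h.symm
    rw [CN, D, D, II, Finset.card_filter, Finset.card_filter, Finset.card_filter,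
      Finset.card_filter, Finset.card_eq_sum_ones, ← Finset.sum_add_distrib,
      ← Finset.sum_add_distrib, ← Finset.sum_add_distrib]
    apply Finset.sum_congr rfl
    intro v _
    by_cases h1 : v = x
    · subst h1
      simp [h, h', hxc]
    · by_cases h2 : v = c
      · subst h2
        simp [h, h', h1]
      · by_cases h3 : G.Adj x v <;> by_cases h4 : G.Adj c v <;> simp [h1, h2, h3, h4]
  · intro h
    have h' : ¬ G.Adj c x := fun e => h e.symm
    rw [CN, D, D, II, ir_eq, ir_eq, Finset.card_filter, Finset.card_filter, Finset.card_filter,
      Finset.card_filter, Finset.card_eq_sum_ones, ← Finset.sum_add_distrib,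
      ← Finset.sum_add_distrib, ← Finset.sum_add_distrib, ← Finset.sum_add_distrib,
      ← Finset.sum_add_distrib]
    apply Finset.sum_congr rfl
    intro v _
    by_cases h1 : v = x
    · subst h1
      simp [h, h', hxc]
    · by_cases h2 : v = c
      · subst h2
        simp [h, h', h1]
      · by_cases h3 : G.Adj x v <;> by_cases h4 : G.Adj c v <;> simp [h1, h2, h3, h4]
  · by_cases h : G.Adj x c
    · rw [if_pos h, PB, CN, D, ir_eq, Finset.card_filter, Finset.card_filter,
        Finset.card_filter, ← Finset.sum_add_distrib, ← Finset.sum_add_distrib]
      apply Finset.sum_congr rfl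
      intro v _
      by_cases h2 : v = c
      · subst h2
        simp [h]
      · by_cases h3 : G.Adj x v <;> by_cases h4 : G.Adj c v <;> simp [h2, h3, h4]
    · rw [if_neg h, PB, CN, D, Finset.card_filter, Finset.card_filter,
        Finset.card_filter, add_zero, ← Finset.sum_add_distrib]
      apply Finset.sum_congr rfl
      intro v _
      by_cases h2 : v = c
      · subst h2
        simp [h]
      · by_cases h3 : G.Adj x v <;> by_cases h4 : G.Adj c v <;> simp [h2, h3, h4]

lemma ir_le (R : Finset V) (x : V) : ir R x ≤ 1 := by
  unfold ir
  split_ifs <;> omega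

/-- in the one-region case the set `II` is small -/
lemma mid_bound {R : Finset V} {x c a1 a2 a3 a4 : V} (hco : Co4 G R) (hxc : x ≠ c)
    (h : Mid G R x c a1 a2 a3 a4) : (II G R x c).card + ir R x + ir R c ≤ 4 := by
  obtain ⟨hS, n12, n13, n14, n23, n24, n34, e12, e34, hI⟩ := h
  have m2 : a2 ∈ CN G R x c := by simp [hS]
  have m3 : a3 ∈ CN G R x c := by simp [hS]
  obtain ⟨-, x2, c2⟩ := mem_CN.mp m2
  obtain ⟨-, x3, c3⟩ := mem_CN.mp m3
  have hle := hco a2 a3 n23
  have hdis1 : Disjoint (II G R x c) (R.filter (fun v => v = x)) := by
    rw [Finset.disjoint_left]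
    intro v hv hv'
    exact (mem_II.mp hv).2.1 (Finset.mem_filter.mp hv').2
  have hdis2 : Disjoint (II G R x c ∪ R.filter (fun v => v = x)) (R.filter (fun v => v = c)) := by
    rw [Finset.disjoint_left]
    intro v hv hv'
    have hv2 := (Finset.mem_filter.mp hv').2
    rcases Finset.mem_union.mp hv with hv | hv
    · exact (mem_II.mp hv).2.2.1 hv2
    · exact hxc ((Finset.mem_filter.mp hv).2.symm.trans hv2)
  have hirx : (R.filter (fun v => v = x)).card = ir R x := by
    rw [ir_eq, Finset.card_filter]
  have hirc : (R.filter (fun v => v = c)).card = ir R c := by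
    rw [ir_eq, Finset.card_filter]
  rw [← hirx, ← hirc, ← Finset.card_union_of_disjoint hdis1, ← Finset.card_union_of_disjoint hdis2]
  refine le_trans (Finset.card_le_card ?_) hle
  intro v hv
  rw [Finset.mem_union, Finset.mem_union] at hv
  rcases hv with (hv | hv) | hv
  · obtain ⟨h1, h2⟩ := hI v hv
    exact mem_CN.mpr ⟨(mem_II.mp hv).1, h1.symm, h2.symm⟩
  · obtain ⟨h1, h2⟩ := Finset.mem_filter.mp hv
    exact mem_CN.mpr ⟨h1, h2 ▸ x2.symm, h2 ▸ x3.symm⟩
  · obtain ⟨h1, h2⟩ := Finset.mem_filter.mp hv
    exact mem_CN.mpr ⟨h1, h2 ▸ c2.symm, h2 ▸ c3.symm⟩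

theorem r5n (R5A : R5AStmt) (RC : RCStmt) : R5NStmt := by
  intro V G R x c hL hco hadj hcR h4
  obtain ⟨r1, -, -⟩ := RC V G R x c hadj.ne
  have r1 := r1 hadj
  have hir := ir_le R x
  have hic : ir R c = 1 := by simp [ir, hcR]
  rcases (II G R x c).eq_empty_or_nonempty with he | hne
  · rw [he, Finset.card_empty] at r1
    omega
  · obtain ⟨a1, a2, a3, a4, hM⟩ := R5A V G R x c hL hadj h4 hne
    have := mid_bound hco hadj.ne hM
    omega

theorem r4n (R4A : R4AStmt) (R5A : R5AStmt) (R4B : R4BStmt) (RC : RCStmt) : R4NStmt := by
  intro V G R x c d hL hco hxc h4 hd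
  obtain ⟨r1, r2, r3⟩ := RC V G R x c hxc
  have hirx := ir_le R x
  have hirc := ir_le R c
  have dx := hd x
  have dc := hd c
  rcases (II G R x c).eq_empty_or_nonempty with he | hne
  · rw [he, Finset.card_empty] at r1 r2
    by_cases hadj : G.Adj x c
    · have := r1 hadj
      constructor
      · intros
        omega
      · intros
        omega
    · have := r2 hadj
      constructor
      · intros
        omega
      · intros
        omega
  · by_cases hadj : G.Adj x c
    · have r1 := r1 hadj
      obtain ⟨a1, a2, a3, a4, hM⟩ := R5A V G R x c hL hadj h4 hne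
      have := mid_bound hco hxc hM
      constructor
      · intros
        omega
      · intros
        omega
    · have r2 := r2 hadj
      rw [if_neg hadj] at r3
      constructor
      · intro h7 hdx
        obtain ⟨a1, a2, a3, a4, hM⟩ := R4A V G R x c hL hco hxc h4 hne (by omega)
        have := mid_bound hco hxc hM
        omega
      · intro h6
        rcases R4B V G R x c hL hxc h4 hne with ⟨a1, a2, a3, a4, hM⟩ |
          ⟨a, ha, hI, hb, a', ha', a'', ha'', hn, e1, e2⟩
        · have := mid_bound hco hxc hM
          omega
        · have da := hd a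
          have key : (II G R x c).card + (PB G R x c).card + 2 + ir R x + ir R c ≤
              (D G R a).card := by
            have hirx' : (R.filter (fun v => v = x)).card = ir R x := by
              rw [ir_eq, Finset.card_filter]
            have hirc' : (R.filter (fun v => v = c)).card = ir R c := by
              rw [ir_eq, Finset.card_filter]
            have hsub : (II G R x c ∪ PB G R x c) ∪ ({a', a''} : Finset V) ∪
                (R.filter (fun v => v = x)) ∪ (R.filter (fun v => v = c)) ⊆ D G R a := by
              intro v hv
              simp only [Finset.mem_union, Finset.mem_insert, Finset.mem_singleton] at hv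
              rcases hv with (((hv | hv) | hv) | hv) | hv
              · exact mem_D.mpr ⟨(mem_II.mp hv).1, (hI v hv).symm⟩
              · exact mem_D.mpr ⟨(mem_PB.mp hv).1, (hb v hv).symm⟩
              · rcases hv with rfl | rfl
                · exact mem_D.mpr ⟨(mem_CN.mp ha').1, e1⟩
                · exact mem_D.mpr ⟨(mem_CN.mp ha'').1, e2⟩
              · obtain ⟨h1, h2⟩ := Finset.mem_filter.mp hv
                exact mem_D.mpr ⟨h1, h2 ▸ (mem_CN.mp ha).2.1.symm⟩
              · obtain ⟨h1, h2⟩ := Finset.mem_filter.mp hv
                exact mem_D.mpr ⟨h1, h2 ▸ (mem_CN.mp ha).2.2.symm⟩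
            have hd1 : Disjoint (II G R x c) (PB G R x c) := by
              rw [Finset.disjoint_left]
              intro v hv hv'
              exact (mem_II.mp hv).2.2.2.1 (mem_PB.mp hv').2.1
            have hd2 : Disjoint (II G R x c ∪ PB G R x c) ({a', a''} : Finset V) := by
              rw [Finset.disjoint_right]
              intro v hv hv'
              have hvc : v ∈ CN G R x c := by
                simp only [Finset.mem_insert, Finset.mem_singleton] at hv
                rcases hv with rfl | rfl
                · exact ha'
                · exact ha''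
              rcases Finset.mem_union.mp hv' with hv' | hv'
              · exact (mem_II.mp hv').2.2.2.1 (mem_CN.mp hvc).2.1
              · exact (mem_PB.mp hv').2.2.1 (mem_CN.mp hvc).2.2
            have hd3 : Disjoint ((II G R x c ∪ PB G R x c) ∪ ({a', a''} : Finset V))
                (R.filter (fun v => v = x)) := by
              rw [Finset.disjoint_right]
              intro v hv hv'
              have hvx := (Finset.mem_filter.mp hv).2
              subst hvx
              rcases Finset.mem_union.mp hv' with hv' | hv'
              · rcases Finset.mem_union.mp hv' with hv' | hv'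
                · exact (mem_II.mp hv').2.1 rfl
                · exact G.irrefl (mem_PB.mp hv').2.1
              · simp only [Finset.mem_insert, Finset.mem_singleton] at hv'
                rcases hv' with rfl | rfl
                · exact G.irrefl (mem_CN.mp ha').2.1
                · exact G.irrefl (mem_CN.mp ha'').2.1
            have hd4 : Disjoint ((II G R x c ∪ PB G R x c) ∪ ({a', a''} : Finset V) ∪
                (R.filter (fun v => v = x))) (R.filter (fun v => v = c)) := by
              rw [Finset.disjoint_right]
              intro v hv hv'
              have hvx := (Finset.mem_filter.mp hv).2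
              subst hvx
              rcases Finset.mem_union.mp hv' with hv' | hv'
              · rcases Finset.mem_union.mp hv' with hv' | hv'
                · rcases Finset.mem_union.mp hv' with hv' | hv'
                  · exact (mem_II.mp hv').2.2.1 rfl
                  · exact (mem_PB.mp hv').2.2.2 rfl
                · simp only [Finset.mem_insert, Finset.mem_singleton] at hv'
                  rcases hv' with rfl | rfl
                  · exact G.irrefl (mem_CN.mp ha').2.2
                  · exact G.irrefl (mem_CN.mp ha'').2.2
              · exact hxc (Finset.mem_filter.mp hv').2.symm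
            have hc := Finset.card_le_card hsub
            rw [Finset.card_union_of_disjoint hd4, Finset.card_union_of_disjoint hd3,
              Finset.card_union_of_disjoint hd2, Finset.card_union_of_disjoint hd1,
              Finset.card_pair hn, hirx', hirc'] at hc
            omega
          omega

end Pool.Agent.H65.RCQ.RC
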